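import Pool.Agent.Helper9K9.DG.Fin

/-!
# A birational self-map of projective three-space whose degrees grow faster than `n ^ 3 δ ^ n`
-/

set_option autoImplicit false

namespace Pool.Agent.Results.MP_55ef7c_ag.QuarticGrowth

open MvPolynomial Filter Topology

open Pool.Agent.Helper993.CS (iter RedDeg)

open Pool.Agent.Helper9K9.DG (HasInverse main tendsto_root)

universe u

/-- Over every field of characteristic different from 2 and 3 there is a birational self-map of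
projective three-space with dynamical degree `δ = 1` such that the degree sequence of its iterates
is not comparable to `n ^ ℓ * δ ^ n` for any `ℓ ≤ 3`. -/
theorem result (K : Type u) [Field K] (h2 : (2 : K) ≠ 0) (h3 : (3 : K) ≠ 0) :
    ∃ (d : ℕ) (f : Fin (3 + 1) → MvPolynomial (Fin (3 + 1)) K) (D : ℕ → ℕ),
      (∀ i, (f i).IsHomogeneous d) ∧ (∀ q, (∀ i, q ∣ f i) → IsUnit q) ∧
      AlgebraicIndependent K f ∧ HasInverse f ∧
      (∀ n, RedDeg (iter f n) (D n)) ∧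
      Tendsto (fun n : ℕ => (D n : ℝ) ^ ((1 : ℝ) / n)) atTop (𝓝 1) ∧
      (∃ c : ℝ, 0 < c ∧ ∀ j : ℕ, c * ((2 : ℝ) ^ j) ^ 4 ≤ max (D (2 ^ j) : ℝ) (D (2 ^ (j + 1)))) ∧
      ∀ δ : ℝ, Tendsto (fun n : ℕ => (D n : ℝ) ^ ((1 : ℝ) / n)) atTop (𝓝 δ) →
        ∀ ℓ : ℕ, ℓ ≤ 3 → ¬ ∃ c₁ c₂ c₃ : ℝ, 0 < c₁ ∧ 0 < c₂ ∧ 0 < c₃ ∧ ∀ n : ℕ, c₃ ≤ n →
          c₁ * ((n : ℝ) ^ ℓ * δ ^ n) ≤ D n ∧ (D n : ℝ) ≤ c₂ * ((n : ℝ) ^ ℓ * δ ^ n) := by
  obtain ⟨d, f, D, C, hd, hu, hind, hinv, hD, hup, hlow⟩ := main h2 h3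
  have hC : 1 ≤ C := by
    have h1 := hup 1 le_rfl
    have : 1 ≤ C * 1 ^ 18 := h1.1.trans h1.2
    simpa using this
  have hCpos : (0 : ℝ) < C := by exact_mod_cast hC
  have hlow' : ∀ j : ℕ, ((2 : ℝ) ^ j) ^ 4 ≤ C * max (D (2 ^ j) : ℝ) (D (2 ^ (j + 1))) := by
    intro j
    have := hlow j
    exact_mod_cast this
  have hlim := tendsto_root hup
  refine ⟨d, f, D, hd, hu, hind, hinv, hD, hlim, ⟨(C : ℝ)⁻¹, inv_pos.mpr hCpos, ?_⟩, ?_⟩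
  · intro j
    rw [inv_mul_le_iff₀ hCpos]
    exact hlow' j
  · intro δ hδ ℓ hℓ
    rintro ⟨c₁, c₂, c₃, hc₁, hc₂, hc₃, h⟩
    have hδ1 : δ = 1 := tendsto_nhds_unique hδ hlim
    subst hδ1
    have hkey : ∀ j : ℕ, c₃ ≤ (2 : ℝ) ^ j → (2 : ℝ) ^ j ≤ C * (c₂ * 8) := by
      intro j hj
      have p1 : (1 : ℝ) ≤ (2 : ℝ) ^ j := one_le_pow₀ (by norm_num)
      have e1 : (D (2 ^ j) : ℝ) ≤ c₂ * (8 * ((2 : ℝ) ^ j) ^ 3) := by
        have h1 := (h (2 ^ j) (by exact_mod_cast hj)).2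
        rw [one_pow, mul_one] at h1
        refine h1.trans (mul_le_mul_of_nonneg_left ?_ hc₂.le)
        push_cast
        calc ((2 : ℝ) ^ j) ^ ℓ ≤ ((2 : ℝ) ^ j) ^ 3 := pow_le_pow_right₀ p1 hℓ
          _ ≤ 8 * ((2 : ℝ) ^ j) ^ 3 := by
              have : 0 ≤ ((2 : ℝ) ^ j) ^ 3 := by positivity
              linarith
      have e2 : (D (2 ^ (j + 1)) : ℝ) ≤ c₂ * (8 * ((2 : ℝ) ^ j) ^ 3) := by
        have h1 := (h (2 ^ (j + 1)) (by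
          have : (2 : ℝ) ^ j ≤ (2 : ℝ) ^ (j + 1) := pow_le_pow_right₀ (by norm_num) (by omega)
          exact_mod_cast hj.trans this)).2
        rw [one_pow, mul_one] at h1
        refine h1.trans (mul_le_mul_of_nonneg_left ?_ hc₂.le)
        push_cast
        have p2 : (1 : ℝ) ≤ (2 : ℝ) ^ (j + 1) := one_le_pow₀ (by norm_num)
        calc ((2 : ℝ) ^ (j + 1)) ^ ℓ ≤ ((2 : ℝ) ^ (j + 1)) ^ 3 := pow_le_pow_right₀ p2 hℓ
          _ = 8 * ((2 : ℝ) ^ j) ^ 3 := by rw [pow_succ]; ring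
      have e3 : ((2 : ℝ) ^ j) ^ 4 ≤ C * (c₂ * (8 * ((2 : ℝ) ^ j) ^ 3)) :=
        (hlow' j).trans (mul_le_mul_of_nonneg_left (max_le e1 e2) hCpos.le)
      have hpos : (0 : ℝ) < ((2 : ℝ) ^ j) ^ 3 := by positivity
      have e4 : (2 : ℝ) ^ j * ((2 : ℝ) ^ j) ^ 3 ≤ (C * (c₂ * 8)) * ((2 : ℝ) ^ j) ^ 3 := by
        calc (2 : ℝ) ^ j * ((2 : ℝ) ^ j) ^ 3 = ((2 : ℝ) ^ j) ^ 4 := by ring
          _ ≤ C * (c₂ * (8 * ((2 : ℝ) ^ j) ^ 3)) := e3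
          _ = _ := by ring
      exact le_of_mul_le_mul_right e4 hpos
    have htop : Tendsto (fun j : ℕ => (2 : ℝ) ^ j) atTop atTop :=
      tendsto_pow_atTop_atTop_of_one_lt (by norm_num)
    obtain ⟨j, hj1, hj2⟩ := ((htop.eventually_ge_atTop c₃).and
      (htop.eventually_gt_atTop (C * (c₂ * 8)))).exists
    exact absurd (hkey j hj1) (not_le.mpr hj2)

end Pool.Agent.Results.MP_55ef7c_ag.QuarticGrowth
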